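import Pool.Agent.R598.PM.KZ

set_option autoImplicit false

namespace Pool.Agent.Results.MP_ea9bab_gt.DiscreteDenumerableRemainder

open Pool.Agent.W868 Pool.Agent.R598.PM

/-- There is a countable transitive model `M` of ZF with a set `D` that is infinite in `M`, such
that, in `M`, the discrete space `(D, σ)` has a denumerable remainder, but the space `ω ∪ {ω}` is
not a remainder of it. -/
theorem result : ∃ M : Set ZFSet.{0}, M.Countable ∧ IsZF M ∧ ∃ D ∈ M, ∃ σ ∈ M,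
    (∀ z, z ∈ σ ↔ z ∈ M ∧ z ⊆ D) ∧ ¬ FinIn M D ∧ DenRem M D σ ∧ ¬ NInfRem M D σ := by
  obtain ⟨M, h1, h2, D, hD, σ, hσ, h3, h4, -, -, -, h5, h6⟩ := KM.main
  exact ⟨M, h1, h2, D, hD, σ, hσ, h3, h4, h5, h6⟩

end Pool.Agent.Results.MP_ea9bab_gt.DiscreteDenumerableRemainder
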